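import Pool.Agent.H26.SeqSp

set_option autoImplicit false

namespace Pool.Agent.Results.MP_b7f2f1_an.Counterexample

open Function

section Defs

variable {𝕜 X : Type} [RCLike 𝕜] [NormedAddCommGroup X] [NormedSpace 𝕜 X]

def IsGreedySet (f : ℕ → StrongDual 𝕜 X) (x : X) (A : Finset ℕ) : Prop :=
  ∀ n ∈ A, ∀ k ∉ A, ‖f k x‖ ≤ ‖f n x‖

noncomputable def sigma (𝕜 : Type) {X : Type} [RCLike 𝕜] [NormedAddCommGroup X] [NormedSpace 𝕜 X]
    (e : ℕ → X) (m : ℕ) (x : X) : ℝ :=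
  sInf {r | ∃ (B : Finset ℕ) (a : ℕ → 𝕜), B.card ≤ m ∧ r = ‖x - ∑ n ∈ B, a n • e n‖}

noncomputable def sigmaT (e : ℕ → X) (f : ℕ → StrongDual 𝕜 X) (m : ℕ) (x : X) : ℝ :=
  sInf {r | ∃ B : Finset ℕ, B.card ≤ m ∧ r = ‖x - ∑ n ∈ B, f n x • e n‖}

def AlmostGreedy (C : ℝ) (e : ℕ → X) (f : ℕ → StrongDual 𝕜 X) : Prop :=
  ∀ x A, IsGreedySet f x A → ‖x - ∑ n ∈ A, f n x • e n‖ ≤ C * sigmaT e f A.card x

def SemiGreedy (C : ℝ) (e : ℕ → X) (f : ℕ → StrongDual 𝕜 X) : Prop :=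
  ∀ x A, IsGreedySet f x A →
    sInf {r | ∃ a : ℕ → 𝕜, r = ‖x - ∑ n ∈ A, a n • e n‖} ≤ C * sigma 𝕜 e A.card x

end Defs

variable {𝕜 : Type} [RCLike 𝕜]

def Le (c : ℕ → 𝕜) (M : ℝ) : Prop :=
  (∀ i j k, i ≠ j → i ≠ k → j ≠ k → 2 * ‖c i‖ + 2 * ‖c j‖ + ‖c k‖ ≤ M) ∧
    (∀ k, 2 ≤ k → ‖c 0 + c 1‖ + 3 * ‖c k‖ ≤ M) ∧ ‖c 1‖ + 3 * ‖c 0‖ ≤ M ∧ ‖c 0‖ + 3 * ‖c 1‖ ≤ M

lemma step (w : ℕ → 𝕜) (M : ℝ) (i j : ℕ) (b : 𝕜) (hi : ∀ n, ‖w n‖ ≤ ‖w i‖)
    (hj : j = i ∨ w j = 0) (hb : ‖b‖ ≤ ‖w i‖) (h : Le w M) :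
    Le (update (update w i 0) j b) M := by
  obtain ⟨hB, hF, hG, hG'⟩ := h
  set z := update w i 0 with hz
  have z1 : ∀ n, n ≠ i → z n = w n := fun n hn => update_of_ne hn _ _
  have z0 : z i = 0 := update_self _ _ _
  have zj : z j = 0 := by
    by_cases h : j = i
    · rw [h, z0]
    · rw [z1 j h, hj.resolve_left h]
  have zl : ∀ n, ‖z n‖ ≤ ‖w i‖ := fun n => by
    by_cases h : n = i
    · simp [h, z0]
    · rw [z1 n h]; exact hi n
  have R : ‖z 0 + z 1‖ + 3 * ‖w i‖ ≤ M := by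
    rcases i with _ | _ | i
    · rwa [z0, zero_add, z1 1 (by omega)]
    · rwa [z0, add_zero, z1 0 (by omega)]
    · rw [z1 0 (by omega), z1 1 (by omega)]; exact hF _ (by omega)
  have B' : ∀ p q, p ≠ q → 2 * ‖w i‖ + 2 * ‖z p‖ + ‖z q‖ ≤ M := by
    intro p q hpq
    by_cases hp : p = i
    · have := hB i q (i + q + 1) (by omega) (by omega) (by omega)
      rw [hp, z0, z1 q (by omega), norm_zero]
      linarith [norm_nonneg (w q), norm_nonneg (w (i + q + 1))]
    · by_cases hq : q = i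
      · have := hB i p (i + p + 1) (by omega) (by omega) (by omega)
        rw [hq, z0, z1 p hp, norm_zero]
        linarith [norm_nonneg (w (i + p + 1))]
      · rw [z1 p hp, z1 q hq]
        exact hB i p q (Ne.symm hp) (Ne.symm hq) hpq
  have S : ∀ n, ‖update z j b n‖ ≤ ‖w (Equiv.swap i j n)‖ := by
    intro n
    by_cases h : n = j
    · simpa [h] using hb
    · rw [update_of_ne h]
      by_cases h' : n = i
      · simp [h', z0]
      · rw [z1 n h', Equiv.swap_apply_of_ne_of_ne h' h]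
  refine ⟨fun p q r h1 h2 h3 => ?_, fun k hk => ?_, ?_, ?_⟩
  · have := hB _ _ _ ((Equiv.swap i j).injective.ne h1) ((Equiv.swap i j).injective.ne h2)
      ((Equiv.swap i j).injective.ne h3)
    linarith [S p, S q, S r]
  · rcases j with _ | _ | j
    · rw [update_self, update_of_ne (by omega), update_of_ne (by omega)]
      linarith [B' k 1 (by omega), norm_add_le b (z 1), zl k]
    · rw [update_self, update_of_ne (by omega), update_of_ne (by omega)]
      linarith [B' k 0 (by omega), norm_add_le (z 0) b, zl k]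
    · rw [update_of_ne (by omega), update_of_ne (by omega)]
      linarith [S k, hi (Equiv.swap i (j + 1 + 1) k)]
  · rcases j with _ | _ | j
    · rw [update_self, update_of_ne (by omega)]
      rw [zj, zero_add] at R
      linarith
    · rw [update_self, update_of_ne (by omega)]
      linarith [B' 0 1 (by omega), zl 0, norm_nonneg (z 1)]
    · rw [update_of_ne (by omega), update_of_ne (by omega)]
      linarith [B' 0 1 (by omega), zl 0, norm_nonneg (z 0)]
  · rcases j with _ | _ | j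
    · rw [update_self, update_of_ne (by omega)]
      linarith [B' 1 0 (by omega), zl 1, norm_nonneg (z 0)]
    · rw [update_self, update_of_ne (by omega)]
      rw [zj, add_zero] at R
      linarith
    · rw [update_of_ne (by omega), update_of_ne (by omega)]
      linarith [B' 1 0 (by omega), zl 1, norm_nonneg (z 1)]

lemma multi (M : ℝ) (b : ℕ → 𝕜) (n : ℕ) : ∀ (w : ℕ → 𝕜) (A B : Finset ℕ), A.card = n →
    B.card ≤ n → (∀ j ∈ B, j ∉ A ∧ w j = 0) → (∀ i ∈ A, ∀ k ∉ A, ‖w k‖ ≤ ‖w i‖) →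
    (∀ i ∈ A, ∀ j ∈ B, ‖b j‖ ≤ ‖w i‖) → Le w M →
    Le (fun k => if k ∈ B then b k else if k ∈ A then 0 else w k) M := by
  induction n with
  | zero =>
    intro w A B hA hB _ _ _ h
    rw [Finset.card_eq_zero.1 hA, Finset.card_eq_zero.1 (Nat.le_zero.1 hB)]
    simpa using h
  | succ n ih =>
    intro w A B hA hB h1 h2 h3 h
    obtain ⟨i, hiA, hi⟩ := A.exists_max_image (fun k => ‖w k‖) (Finset.card_pos.1 (by omega))
    have hi' : ∀ k, ‖w k‖ ≤ ‖w i‖ := fun k => by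
      by_cases hk : k ∈ A
      · exact hi k hk
      · exact h2 i hiA k hk
    have hc : (A.erase i).card = n := by rw [Finset.card_erase_of_mem hiA]; omega
    rcases B.eq_empty_or_nonempty with rfl | ⟨j, hj⟩
    · have := ih _ (A.erase i) ∅ hc (by simp) (by simp) (fun p hp k hk => ?_) (by simp)
        (step w M i i 0 hi' (Or.inl rfl) (by simp) h)
      · refine (congrArg (fun c => Le c M) (funext fun k => ?_)).mp this
        by_cases hk : k = i <;> simp [hk, hiA]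
      · obtain ⟨hp1, hp2⟩ := Finset.mem_erase.1 hp
        by_cases hk' : k = i
        · simp [hk']
        · simpa [hk', hp1] using h2 p hp2 k (by simpa [hk'] using hk)
    · have hij : j ≠ i := fun e => (h1 j hj).1 (e ▸ hiA)
      have := ih _ (A.erase i) (B.erase j) hc (by rw [Finset.card_erase_of_mem hj]; omega)
        (fun q hq => ?_) (fun p hp k hk => ?_) (fun p hp q hq => ?_)
        (step w M i j (b j) hi' (Or.inr (h1 j hj).2) (h3 i hiA j hj) h)
      · refine (congrArg (fun c => Le c M) (funext fun k => ?_)).mp this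
        by_cases hk : k = j
        · simp [hk, hj, (h1 j hj).1]
        · by_cases hk' : k = i
          · subst hk'
            have : k ∉ B := fun e => (h1 k e).1 hiA
            simp [hk, hiA, this]
          · simp [hk, hk']
      · obtain ⟨hq1, hq2⟩ := Finset.mem_erase.1 hq
        have hqi : q ≠ i := fun e => (h1 q hq2).1 (e ▸ hiA)
        simp [hq1, hqi, h1 q hq2]
      · obtain ⟨hp1, hp2⟩ := Finset.mem_erase.1 hp
        have hpj : p ≠ j := fun e => (h1 j hj).1 (e ▸ hp2)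
        by_cases hk1 : k = j
        · simpa [hk1, hp1, hpj] using h3 p hp2 j hj
        · by_cases hk' : k = i
          · subst hk'; simp [hk1]
          · simpa [hk', hk1, hp1, hpj] using h2 p hp2 k (by simpa [hk'] using hk)
      · obtain ⟨hp1, hp2⟩ := Finset.mem_erase.1 hp
        have hpj : p ≠ j := fun e => (h1 j hj).1 (e ▸ hp2)
        simpa [hp1, hpj] using h3 p hp2 q (Finset.mem_of_mem_erase hq)

noncomputable def p (n : ℕ) : (ℕ → 𝕜) →L[𝕜] 𝕜 := ContinuousLinearMap.proj n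

def Good (φ : Fin 3 → (ℕ → 𝕜) →L[𝕜] 𝕜) : Prop :=
  (∃ i j k, i ≠ j ∧ i ≠ k ∧ j ≠ k ∧ φ = ![(2 : 𝕜) • p i, (2 : 𝕜) • p j, p k]) ∨
    (∃ k, 2 ≤ k ∧ φ = ![p 0 + p 1, (3 : 𝕜) • p k, 0]) ∨ φ = ![p 1, (3 : 𝕜) • p 0, 0] ∨
      φ = ![p 0, (3 : 𝕜) • p 1, 0]

noncomputable def L (w : {φ // Good (𝕜 := 𝕜) φ}) : (ℕ → 𝕜) →L[𝕜] PiLp 1 fun _ : Fin 3 => 𝕜 :=
  (PiLp.continuousLinearEquiv 1 𝕜 fun _ : Fin 3 => 𝕜).symm.toContinuousLinearMap.comp
    (ContinuousLinearMap.pi w.1)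

lemma L_norm (w : {φ // Good (𝕜 := 𝕜) φ}) (c : ℕ → 𝕜) :
    ‖L w c‖ = ‖w.1 0 c‖ + ‖w.1 1 c‖ + ‖w.1 2 c‖ := by
  rw [PiLp.norm_eq_of_L1, Fin.sum_univ_three]; rfl

lemma le_iff (c : ℕ → 𝕜) (M : ℝ) : (∀ w, ‖L w c‖ ≤ M) ↔ Le c M := by
  constructor
  · intro h
    refine ⟨fun i j k h1 h2 h3 => ?_, fun k hk => ?_, ?_, ?_⟩
    · simpa [L_norm, p] using h ⟨_, Or.inl ⟨i, j, k, h1, h2, h3, rfl⟩⟩
    · simpa [L_norm, p] using h ⟨_, Or.inr (Or.inl ⟨k, hk, rfl⟩)⟩
    · simpa [L_norm, p] using h ⟨_, Or.inr (Or.inr (Or.inl rfl))⟩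
    · simpa [L_norm, p] using h ⟨_, Or.inr (Or.inr (Or.inr rfl))⟩
  · rintro ⟨h1, h2, h3, h4⟩ ⟨φ, ⟨i, j, k, a, b, c, rfl⟩ | ⟨k, hk, rfl⟩ | rfl | rfl⟩
    · simpa [L_norm, p] using h1 i j k a b c
    · simpa [L_norm, p] using h2 k hk
    · simpa [L_norm, p] using h3
    · simpa [L_norm, p] using h4

lemma le_of_bound (c : ℕ → 𝕜) (hc : ∀ n, ‖c n‖ ≤ 1) : Le c 5 :=
  ⟨fun i j k _ _ _ => by linarith [hc i, hc j, hc k],
    fun k _ => by linarith [hc 0, hc 1, hc k, norm_add_le (c 0) (c 1)],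
    by linarith [hc 0, hc 1], by linarith [hc 0, hc 1]⟩

theorem result (𝕜 : Type) [RCLike 𝕜] :
    ∃ (X : Type) (_ : NormedAddCommGroup X) (_ : NormedSpace 𝕜 X) (_ : CompleteSpace X)
      (e : ℕ → X) (f : ℕ → StrongDual 𝕜 X), (∀ k n, f k (e n) = if k = n then 1 else 0) ∧
      Dense (Submodule.span 𝕜 (Set.range e) : Set X) ∧ (∀ x, (∀ n, f n x = 0) → x = 0) ∧
      AlmostGreedy 1 e f ∧ ¬ SemiGreedy 1 e f := by
  obtain ⟨X, _, _, _, e, f, h1, h2, h3, h4, h5⟩ := Pool.Agent.H26.SeqSp.exists_space 𝕜 (L (𝕜 := 𝕜))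
    (fun n => ⟨5, (le_iff _ _).2 (le_of_bound _ fun k => by
      rw [Pi.single_apply]; split_ifs <;> simp)⟩)
    (fun n => ⟨⟨_, Or.inl ⟨n + 1, n + 2, n, by omega, by omega, by omega, rfl⟩⟩,
      PiLp.proj 1 (fun _ : Fin 3 => 𝕜) 2, fun c => rfl⟩)
  have hle : ∀ x, Le (fun n => f n x) ‖x‖ := fun x => (le_iff _ _).1 fun w => h4 w x
  have hge : ∀ x C, 0 ≤ C → Le (fun n => f n x) C → ‖x‖ ≤ C := fun x C h0 h =>
    h5 x C h0 ((le_iff _ _).2 h)
  have hco : ∀ (x : X) (A : Finset ℕ) (a : ℕ → 𝕜) (k : ℕ),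
      f k (x - ∑ n ∈ A, a n • e n) = if k ∈ A then f k x - a k else f k x := by
    intro x A a k
    simp only [map_sub, map_sum, map_smul, h1, smul_eq_mul, mul_ite, mul_one, mul_zero,
      Finset.sum_ite_eq]
    split_ifs <;> simp
  refine ⟨X, inferInstance, inferInstance, inferInstance, e, f, h1, h2, h3, fun x A hA => ?_,
    fun h => ?_⟩
  · rw [one_mul]
    refine le_csInf ⟨_, ∅, by simp, rfl⟩ ?_
    rintro _ ⟨B, hB, rfl⟩
    refine hge _ _ (norm_nonneg _) ?_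
    have := multi _ (fun n => f n x) _ _ (A \ B) (B \ A) rfl ?_ (fun j hj => ?_)
      (fun i hi k hk => ?_) (fun i hi j hj => ?_) (hle (x - ∑ n ∈ B, f n x • e n))
    · refine (congrArg (fun c => Le c _) (funext fun k => ?_)).mp this
      by_cases a : k ∈ A <;> by_cases b : k ∈ B <;> simp [hco, a, b]
    · have := Finset.card_sdiff_add_card_inter A B
      have := Finset.card_sdiff_add_card_inter B A
      rw [Finset.inter_comm] at this
      omega
    · obtain ⟨a, b⟩ := Finset.mem_sdiff.1 hj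
      simp [hco, a, b]
    · obtain ⟨a, b⟩ := Finset.mem_sdiff.1 hi
      by_cases c : k ∈ B
      · simp [hco, c]
      · simpa [hco, b, c] using hA i a k (by simpa [c] using hk)
    · obtain ⟨a, b⟩ := Finset.mem_sdiff.1 hi
      simpa [hco, b] using hA i a j (Finset.mem_sdiff.1 hj).2
  · let x : X := (4 : 𝕜) • e 0 + (2 : 𝕜) • e 1 + (4 : 𝕜) • e 2
    have hx : ∀ k, f k x = if k = 0 then 4 else if k = 1 then 2 else if k = 2 then 4 else 0 := by
      intro k
      rcases k with _ | _ | _ | k <;> simp [x, h1]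
    have hg : IsGreedySet f x {2} := by
      intro n hn k _
      rw [Finset.mem_singleton.1 hn, hx 2, hx k]
      rcases k with _ | _ | _ | k <;> norm_num
      split_ifs <;> simp
    have h6 : (14 : ℝ) ≤ sInf {r | ∃ a : ℕ → 𝕜, r = ‖x - ∑ n ∈ ({2} : Finset ℕ), a n • e n‖} := by
      refine le_csInf ⟨_, 0, rfl⟩ ?_
      rintro _ ⟨a, rfl⟩
      have := (hle (x - ∑ n ∈ ({2} : Finset ℕ), a n • e n)).2.2.1
      simp only [hco, hx] at this
      norm_num at this ⊢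
      linarith
    have h7 : sigma 𝕜 e 1 x ≤ 13 := by
      refine csInf_le_of_le ⟨0, by rintro _ ⟨B, a, _, rfl⟩; exact norm_nonneg _⟩
        ⟨{0}, fun _ => 5, by simp, rfl⟩ (hge _ _ (by norm_num) ?_)
      have hy : ∀ k, f k (x - ∑ n ∈ ({0} : Finset ℕ), (5 : 𝕜) • e n) =
          if k = 0 then -1 else if k = 1 then 2 else if k = 2 then 4 else 0 := by
        intro k
        rw [hco x {0} (fun _ => 5), hx]
        by_cases hk : k = 0 <;> simp [hk]
        norm_num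
      have hy' : ∀ k, ‖f k (x - ∑ n ∈ ({0} : Finset ℕ), (5 : 𝕜) • e n)‖ =
          if k = 0 then 1 else if k = 1 then 2 else if k = 2 then 4 else 0 := by
        intro k
        rw [hy]
        split_ifs <;> simp
      refine ⟨fun i j k a b c => ?_, fun k hk => ?_, ?_, ?_⟩
      · simp only [hy']
        split_ifs <;> first | omega | norm_num
      · simp only [hy']
        simp only [hy]
        norm_num
        split_ifs <;> first | omega | norm_num
      · simp only [hy']; norm_num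
      · simp only [hy']; norm_num
    have := h x {2} hg
    rw [Finset.card_singleton] at this
    linarith

end Pool.Agent.Results.MP_b7f2f1_an.Counterexample
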